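import Mathlib
import Pool.Agent.H7.OPP.Stmts

/-!
# OPP, module NPSI: the map `ψ`, first part
-/

set_option autoImplicit false

open scoped Topology ComplexConjugate Uniformity

namespace Pool.OPP

noncomputable section

/-- matrix entry, extended by zero -/
def psM {L k m : ℕ} (e : Fin L × JJ k ≃ Fin m) (M : Matrix (Fin m) (Fin m) ℂ) (l : Fin L)
    (s t : JI) : ℂ :=
  if h : s ∈ JJ k ∧ t ∈ JJ k then M (e (l, ⟨s, h.1⟩)) (e (l, ⟨t, h.2⟩)) else 0

theorem psM_coe {L k m : ℕ} (e : Fin L × JJ k ≃ Fin m) (M : Matrix (Fin m) (Fin m) ℂ) (l : Fin L)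
    (s t : JJ k) : psM e M l s t = M (e (l, s)) (e (l, t)) := by
  unfold psM
  rw [dif_pos ⟨s.2, t.2⟩]

theorem psM_add {L k m : ℕ} (e : Fin L × JJ k ≃ Fin m) (M M' : Matrix (Fin m) (Fin m) ℂ)
    (l : Fin L) (s t : JI) : psM e (M + M') l s t = psM e M l s t + psM e M' l s t := by
  unfold psM
  split_ifs
  · rfl
  · simp

theorem psM_smul {L k m : ℕ} (e : Fin L × JJ k ≃ Fin m) (c : ℂ) (M : Matrix (Fin m) (Fin m) ℂ)
    (l : Fin L) (s t : JI) : psM e (c • M) l s t = c * psM e M l s t := by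
  unfold psM
  split_ifs
  · rfl
  · simp

/-- coefficient functions of `ψ M` -/
def psH {L k m : ℕ} (e : Fin L × JJ k ≃ Fin m) (H : Fin L → JI → JI → C(SS, ℂ))
    (M : Matrix (Fin m) (Fin m) ℂ) (s t : JI) : C(SS, ℂ) :=
  ∑ l, psM e M l s t • H l s t

theorem psH_add {L k m : ℕ} (e : Fin L × JJ k ≃ Fin m) (H : Fin L → JI → JI → C(SS, ℂ))
    (M M' : Matrix (Fin m) (Fin m) ℂ) (s t : JI) :
    psH e H (M + M') s t = psH e H M s t + psH e H M' s t := by
  unfold psH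
  rw [← Finset.sum_add_distrib]
  refine Finset.sum_congr rfl fun l _ => ?_
  rw [psM_add]
  ext x
  change (psM e M l s t + psM e M' l s t) * H l s t x =
    psM e M l s t * H l s t x + psM e M' l s t * H l s t x
  ring

theorem psH_smul {L k m : ℕ} (e : Fin L × JJ k ≃ Fin m) (H : Fin L → JI → JI → C(SS, ℂ))
    (c : ℂ) (M : Matrix (Fin m) (Fin m) ℂ) (s t : JI) :
    psH e H (c • M) s t = c • psH e H M s t := by
  unfold psH
  rw [Finset.smul_sum]
  refine Finset.sum_congr rfl fun l _ => ?_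
  rw [psM_smul, mul_smul]

theorem psH_apply {L k m : ℕ} (e : Fin L × JJ k ≃ Fin m) (H : Fin L → JI → JI → C(SS, ℂ))
    (M : Matrix (Fin m) (Fin m) ℂ) (s t : JI) (x : SS) :
    psH e H M s t x = ∑ l, psM e M l s t * H l s t x := by
  unfold psH
  rw [ContinuousMap.sum_apply]
  rfl

theorem psH_adm (hAdm : SAdm) {L k m : ℕ} (e : Fin L × JJ k ≃ Fin m)
    (H : Fin L → JI → JI → C(SS, ℂ)) (M : Matrix (Fin m) (Fin m) ℂ) (s t : JI)
    (hH : ∀ l, Adm s t (H l s t)) : Adm s t (psH e H M s t) := by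
  unfold psH
  have key : ∀ S : Finset (Fin L), Adm s t (∑ l ∈ S, psM e M l s t • H l s t) := by
    classical
    intro S
    induction S using Finset.induction_on with
    | empty => simpa using hAdm.2.2.2.2.1 s t
    | insert a S ha ih =>
      rw [Finset.sum_insert ha]
      exact hAdm.1 _ _ _ _ (hAdm.2.1 _ _ _ _ (hH a)) ih
  exact key _

/-- `ψ M` as an element of the ambient algebra -/
def psB {L k m : ℕ} (e : Fin L × JJ k ≃ Fin m) (H : Fin L → JI → JI → C(SS, ℂ))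
    (M : Matrix (Fin m) (Fin m) ℂ) : BB :=
  ∑ s ∈ JJ k, ∑ t ∈ JJ k, GG k s t (psH e H M s t)

theorem psB_mem (hAdm : SAdm) (hLev : SLev) {L k m : ℕ} (e : Fin L × JJ k ≃ Fin m)
    (H : Fin L → JI → JI → C(SS, ℂ))
    (hH : ∀ l, ∀ s ∈ JJ k, ∀ t ∈ JJ k, Adm s t (H l s t)) (M : Matrix (Fin m) (Fin m) ℂ) :
    psB e H M ∈ AA := by
  apply StarSubalgebra.le_topologicalClosure
  rw [hLev.2.2.2.2.2]
  exact ⟨k, fun s t => psH e H M s t, fun s hs t ht => psH_adm hAdm e H M s t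
    (fun l => hH l s hs t ht), rfl⟩

theorem psB_add (hGa : SGa) {L k m : ℕ} (e : Fin L × JJ k ≃ Fin m)
    (H : Fin L → JI → JI → C(SS, ℂ)) (M M' : Matrix (Fin m) (Fin m) ℂ) :
    psB e H (M + M') = psB e H M + psB e H M' := by
  unfold psB
  rw [← Finset.sum_add_distrib]
  refine Finset.sum_congr rfl fun s hs => ?_
  rw [← Finset.sum_add_distrib]
  refine Finset.sum_congr rfl fun t ht => ?_
  rw [psH_add, (hGa k s t hs ht (psH e H M s t)).2.2.1]

theorem psB_smul (hGa : SGa) {L k m : ℕ} (e : Fin L × JJ k ≃ Fin m)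
    (H : Fin L → JI → JI → C(SS, ℂ)) (c : ℂ) (M : Matrix (Fin m) (Fin m) ℂ) :
    psB e H (c • M) = c • psB e H M := by
  unfold psB
  rw [Finset.smul_sum]
  refine Finset.sum_congr rfl fun s hs => ?_
  rw [Finset.smul_sum]
  refine Finset.sum_congr rfl fun t ht => ?_
  rw [psH_smul, (hGa k s t hs ht (psH e H M s t)).2.2.2.1]

/-- the linear map `ψ` -/
def psL (hAdm : SAdm) (hLev : SLev) (hGa : SGa) {L k m : ℕ} (e : Fin L × JJ k ≃ Fin m)
    (H : Fin L → JI → JI → C(SS, ℂ))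
    (hH : ∀ l, ∀ s ∈ JJ k, ∀ t ∈ JJ k, Adm s t (H l s t)) :
    Matrix (Fin m) (Fin m) ℂ →ₗ[ℂ] AA where
  toFun M := ⟨psB e H M, psB_mem hAdm hLev e H hH M⟩
  map_add' M M' := Subtype.ext (psB_add hGa e H M M')
  map_smul' c M := Subtype.ext (psB_smul hGa e H c M)

/-- extension by zero -/
def ps_ex (n : ℕ) (g : Fin n → ZMod 3) : ℕ → ZMod 3 :=
  fun j => if h : j < n then g ⟨j, h⟩ else 0

theorem ps_avg (n : ℕ) (f : SS → ℝ) (s t : JI) (x : SS) :
    avg n f s t x = (3 ^ n : ℂ)⁻¹ * ∑ g : Fin n → ZMod 3,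
      (f (act (-(ps_ex n g)) x) : ℂ) * chi (ps_ex n g) s * conj (chi (ps_ex n g) t) := rfl

theorem ps_coef_diag (hAct : SAct) {L n : ℕ} (p : Fin L → SS) (f : Fin L → C(SS, ℝ))
    (hf1 : ∀ x, ∑ l, f l x = 1) (s : JI) (x : SS) : ∑ l, coef n p f l s s x = 1 := by
  have hchi : ∀ γ s, ‖chi γ s‖ = 1 := hAct.2.2.2.2.2.2.2.2.1
  have h1 : ∀ l, coef n p f l s s x = (3 ^ n : ℂ)⁻¹ * ∑ g : Fin n → ZMod 3,
      (f l (act (-(ps_ex n g)) x) : ℂ) := by
    intro l
    unfold coef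
    rw [if_pos (fun w _ => Iff.rfl), ps_avg]
    congr 1
    refine Finset.sum_congr rfl fun g _ => ?_
    rw [mul_assoc, Complex.mul_conj, Complex.normSq_eq_norm_sq, hchi]
    simp
  rw [Finset.sum_congr rfl fun l _ => h1 l, ← Finset.mul_sum, Finset.sum_comm]
  have h2 : ∀ g : Fin n → ZMod 3, ∑ l, (f l (act (-(ps_ex n g)) x) : ℂ) = 1 := by
    intro g
    exact_mod_cast hf1 (act (-(ps_ex n g)) x)
  rw [Finset.sum_congr rfl fun g _ => h2 g, Finset.sum_const, Finset.card_univ, Fintype.card_fun,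
    ZMod.card, Fintype.card_fin, nsmul_eq_mul]
  push_cast
  rw [mul_one, inv_mul_cancel₀ (pow_ne_zero _ (by norm_num))]

theorem psB_one (hAct : SAct) (hGa : SGa) {L k n m : ℕ} (e : Fin L × JJ k ≃ Fin m)
    (p : Fin L → SS) (f : Fin L → C(SS, ℝ)) (hf1 : ∀ x, ∑ l, f l x = 1)
    (H : Fin L → JI → JI → C(SS, ℂ))
    (hH : ∀ l, ∀ s ∈ JJ k, ∀ t ∈ JJ k, ∀ x, H l s t x = coef n p f l s t x) :
    psB e H 1 = 1 := by
  have hbas : ((istar, (∅ : Finset ℕ)) : JI) ∈ JJ k := by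
    simp [JJ]
  rw [← (hGa k _ _ hbas hbas 1).2.2.2.2.2]
  unfold psB
  refine Finset.sum_congr rfl fun s hs => ?_
  have hd : ∀ l, ∀ t ∈ JJ k, psM e 1 l s t = if s = t then 1 else 0 := by
    intro l t ht
    unfold psM
    rw [dif_pos ⟨hs, ht⟩, Matrix.one_apply]
    by_cases hst : s = t
    · subst hst
      simp
    · rw [if_neg, if_neg hst]
      intro h
      have h2 := e.injective h
      simp only [Prod.mk.injEq, Subtype.mk.injEq, true_and] at h2
      exact hst h2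
  rw [Finset.sum_eq_single s]
  · congr 1
    ext x
    rw [psH_apply]
    have : ∀ l, psM e 1 l s s * H l s s x = coef n p f l s s x := by
      intro l
      rw [hd l s hs, if_pos rfl, one_mul, hH l s hs s hs]
    rw [Finset.sum_congr rfl fun l _ => this l, ps_coef_diag hAct p f hf1]
    rfl
  · intro t ht hts
    have h0 : psH e H 1 s t = (0 : ℂ) • (1 : C(SS, ℂ)) := by
      ext x
      rw [psH_apply]
      have : ∀ l, psM e 1 l s t * H l s t x = 0 := by
        intro l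
        rw [hd l t ht, if_neg (fun h => hts h.symm), zero_mul]
      rw [Finset.sum_congr rfl fun l _ => this l]
      simp
    rw [h0, ← (hGa k s t hs ht 1).2.2.2.1, zero_smul]
  · intro h
    exact absurd hs h

end

end Pool.OPP
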