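import Mathlib
import Pool.Agent.H70.OPP.NPSIa

/-!
# OPP, module NPSI: the map `ψ`, second part: regrouping of the sum over the basis
-/

set_option autoImplicit false

open scoped Topology ComplexConjugate Uniformity

namespace Pool.OPP

noncomputable section

theorem ps_low_jn {k : ℕ} {s : JI} (hs : s ∈ JJ k) {T : Finset ℕ} (hT : ∀ i ∈ T, k ≤ i) :
    low k (jn s T) = s := by
  have h1 : ∀ i ∈ s.2, i < k := by
    intro i hi
    simp only [JJ, Finset.mem_product, Finset.mem_univ, true_and, Finset.mem_powerset] at hs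
    exact Finset.mem_range.1 (hs hi)
  unfold low jn
  refine Prod.ext rfl ?_
  ext i
  simp only [Finset.mem_filter, Finset.mem_union]
  constructor
  · rintro ⟨h2 | h2, h3⟩
    · exact h2
    · exact absurd h3 (not_lt.2 (hT i h2))
  · intro h2
    exact ⟨Or.inl h2, h1 i h2⟩

theorem ps_high_jn {k : ℕ} {s : JI} (hs : s ∈ JJ k) {T : Finset ℕ} (hT : ∀ i ∈ T, k ≤ i) :
    high k (jn s T) = T := by
  have h1 : ∀ i ∈ s.2, i < k := by
    intro i hi
    simp only [JJ, Finset.mem_product, Finset.mem_univ, true_and, Finset.mem_powerset] at hs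
    exact Finset.mem_range.1 (hs hi)
  unfold high jn
  ext i
  simp only [Finset.mem_filter, Finset.mem_union]
  constructor
  · rintro ⟨h2 | h2, h3⟩
    · exact absurd h3 (not_le.2 (h1 i h2))
    · exact h2
  · intro h2
    exact ⟨Or.inr h2, hT i h2⟩

theorem ps_low_mem (k : ℕ) (u : JI) : low k u ∈ JJ k := by
  simp only [JJ, low, Finset.mem_product, Finset.mem_univ, true_and, Finset.mem_powerset]
  intro i hi
  exact Finset.mem_range.2 (Finset.mem_filter.1 hi).2

theorem ps_split (k : ℕ) (u : JI) : jn (low k u) (high k u) = u := by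
  unfold jn low high
  refine Prod.ext rfl ?_
  ext i
  simp only [Finset.mem_union, Finset.mem_filter]
  constructor
  · rintro (h | h) <;> exact h.1
  · intro h
    rcases lt_or_ge i k with h1 | h1
    · exact Or.inl ⟨h, h1⟩
    · exact Or.inr ⟨h, h1⟩

/-- the indices as pairs (high part, low part) -/
def psE (k : ℕ) : {T : Finset ℕ // ∀ i ∈ T, k ≤ i} × JJ k ≃ JI where
  toFun q := jn q.2 q.1
  invFun u := (⟨high k u, fun _ hi => (Finset.mem_filter.1 hi).2⟩, ⟨low k u, ps_low_mem k u⟩)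
  left_inv q := by
    refine Prod.ext (Subtype.ext ?_) (Subtype.ext ?_)
    · exact ps_high_jn q.2.2 q.1.2
    · exact ps_low_jn q.2.2 q.1.2
  right_inv u := ps_split k u

/-- action of `ψ M` at a point -/
theorem psB_apply (hEl : SEl) (hGc : SGc) {L k m : ℕ} (e : Fin L × JJ k ≃ Fin m)
    (H : Fin L → JI → JI → C(SS, ℂ)) (M : Matrix (Fin m) (Fin m) ℂ) (x : SS) (ξ : HH)
    (q : {T : Finset ℕ // ∀ i ∈ T, k ≤ i}) (s : JJ k) :
    ((psB e H M x) ξ : JI → ℂ) (jn s q.1) =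
      ∑ t : JJ k, psH e H M s t (pt x q.1) * ξ (jn t q.1) := by
  have h1 : ∀ s' ∈ JJ k, ∀ t ∈ JJ k,
      (((GG k s' t (psH e H M s' t)) x) ξ : JI → ℂ) (jn s q.1) =
        if (s : JI) = s' then psH e H M s' t (pt x q.1) * ξ (jn t q.1) else 0 := by
    intro s' hs' t ht
    obtain ⟨⟨C, hC⟩, h2⟩ := hGc k s' t hs' ht (psH e H M s' t)
    rw [h2 x, (hEl k s' t hs' ht _ C (hC x)).1, ps_low_jn s.2 q.2, ps_high_jn s.2 q.2]
  unfold psB
  rw [ContinuousMap.sum_apply, sum_apply, lp.coeFn_sum, Finset.sum_apply,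
    Finset.sum_eq_single (s : JI)]
  · rw [ContinuousMap.sum_apply, sum_apply, lp.coeFn_sum, Finset.sum_apply,
      ← Finset.sum_coe_sort]
    refine Finset.sum_congr rfl fun t _ => ?_
    rw [h1 s s.2 t t.2, if_pos rfl]
  · intro s' hs' hne
    rw [ContinuousMap.sum_apply, sum_apply, lp.coeFn_sum, Finset.sum_apply]
    refine Finset.sum_eq_zero fun t ht => ?_
    rw [h1 s' hs' t ht, if_neg (fun h => hne h.symm)]
  · intro h
    exact absurd s.2 h

open scoped ComplexOrder in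
/-- positivity of a matrix of operators from the positivity on the finite blocks -/
theorem ps_pos (k n' : ℕ) (F : Fin n' → Fin n' → BH) (ξ : Fin n' → HH)
    (hF : ∀ q : {T : Finset ℕ // ∀ i ∈ T, k ≤ i}, 0 ≤ ∑ s : JJ k, ∑ i, ∑ j,
      conj ((ξ i : JI → ℂ) (jn s q.1)) * ((F i j (ξ j) : JI → ℂ) (jn s q.1))) :
    ∃ r : ℝ, 0 ≤ r ∧ ∑ i, ∑ j, inner ℂ (ξ i) (F i j (ξ j)) = (r : ℂ) := by
  have h1 : HasSum (fun u : JI => ∑ i, ∑ j, conj ((ξ i : JI → ℂ) u) * (F i j (ξ j) : JI → ℂ) u)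
      (∑ i, ∑ j, inner ℂ (ξ i) (F i j (ξ j))) := by
    refine hasSum_sum fun i _ => hasSum_sum fun j _ => ?_
    have h2 := lp.hasSum_inner (𝕜 := ℂ) (ξ i) (F i j (ξ j))
    have h3 : (fun u : JI => conj ((ξ i : JI → ℂ) u) * (F i j (ξ j) : JI → ℂ) u) =
        fun u => inner ℂ ((ξ i : JI → ℂ) u) ((F i j (ξ j) : JI → ℂ) u) := by
      ext u
      rw [RCLike.inner_apply, mul_comm]
    rw [h3]
    exact h2
  have h2 := (Equiv.hasSum_iff (psE k)).2 h1
  have h3 := h2.prod_fiberwise (fun q => hasSum_fintype _)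
  have h4 : 0 ≤ ∑ i, ∑ j, inner ℂ (ξ i) (F i j (ξ j)) := HasSum.nonneg (fun q => hF q) h3
  rw [Complex.nonneg_iff] at h4
  exact ⟨(∑ i, ∑ j, inner ℂ (ξ i) (F i j (ξ j))).re, h4.1, Complex.ext (by simp) (by
    rw [← h4.2]; simp)⟩

end

end Pool.OPP
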