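import Mathlib
import Pool.Agent.H70.OPP.NPSIb
import Pool.Agent.H7.OPP.NPSIn

/-!
# OPP, module NPSI: the map `ψ`
-/

set_option autoImplicit false

open scoped Topology ComplexConjugate Uniformity

namespace Pool.OPP

/-- the finite part of the positivity (helper22) -/
def SNpsiFin : Prop :=
  ∀ (L k n m n' : ℕ) (e : Fin L × JJ k ≃ Fin m) (p : Fin L → SS)
    (f : Fin L → C(SS, ℝ)), (∀ l x, 0 ≤ f l x) →
    ∀ (B : Fin n' → Fin n' → Matrix (Fin m) (Fin m) ℂ) (y : SS) (v : Fin n' → JI → ℂ),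
    ∃ r : ℝ, 0 ≤ r ∧ ∑ i, ∑ j, ∑ s : JJ k, ∑ t : JJ k, conj (v i s) *
      (∑ l, (∑ l', star (B l' i) * B l' j) (e (l, s)) (e (l, t)) * coef n p f l s t y) *
        v j t = (r : ℂ)

/-- module NPSI -/
theorem sNpsi_of (hFin : SNpsiFin) (hAct : SAct) (hEl : SEl) (hGc : SGc) (hGa : SGa)
    (hAdm : SAdm) (hLev : SLev) (hNadm : SNadm) (hNpos : SNpos) : SNpsi := by
  classical
  intro L k n m e p f hkn hf0 hf1 hdep hFF
  have hex : ∀ (l : Fin L) (s t : JI), ∃ h : C(SS, ℂ), s ∈ JJ k → t ∈ JJ k →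
      Adm s t h ∧ ∀ x, h x = coef n p f l s t x := by
    intro l s t
    by_cases hs : s ∈ JJ k
    · by_cases ht : t ∈ JJ k
      · obtain ⟨h, h1, h2⟩ := hNadm L k n p f hkn hdep hFF l s hs t ht
        exact ⟨h, fun _ _ => ⟨h1, h2⟩⟩
      · exact ⟨0, fun _ h => absurd h ht⟩
    · exact ⟨0, fun h => absurd h hs⟩
  choose H hH using hex
  have hA : ∀ l, ∀ s ∈ JJ k, ∀ t ∈ JJ k, Adm s t (H l s t) :=
    fun l s hs t ht => (hH l s t hs ht).1
  have hC : ∀ l, ∀ s ∈ JJ k, ∀ t ∈ JJ k, ∀ x, H l s t x = coef n p f l s t x :=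
    fun l s hs t ht => (hH l s t hs ht).2
  have hcoef : ∀ (M : Matrix (Fin m) (Fin m) ℂ) (s t : JJ k) (x : SS),
      psH e H M s t x = ∑ l, M (e (l, s)) (e (l, t)) * coef n p f l s t x := by
    intro M s t x
    rw [psH_apply]
    refine Finset.sum_congr rfl fun l _ => ?_
    rw [psM_coe, hC l s s.2 t t.2]
  have hcp : ∀ n' : ℕ, ∀ B : Fin n' → Fin n' → Matrix (Fin m) (Fin m) ℂ,
      ∃ C : Fin n' → Fin n' → AA, ∀ i j,
        psL hAdm hLev hGa e H hA (∑ l, star (B l i) * B l j) = ∑ l, star (C l i) * C l j := by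
    intro n' B
    refine hNpos n' (fun i j => psL hAdm hLev hGa e H hA (∑ l, star (B l i) * B l j)) ?_
    intro x ξ
    refine ps_pos k n' (fun i j => (psB e H (∑ l, star (B l i) * B l j)) x) ξ ?_
    intro q
    obtain ⟨r, hr, hr2⟩ := hFin L k n m n' e p f hf0 B (pt x q.1)
      (fun i s => (ξ i : JI → ℂ) (jn s q.1))
    have h1 : ∑ s : JJ k, ∑ i, ∑ j, conj ((ξ i : JI → ℂ) (jn s q.1)) *
        (((psB e H (∑ l, star (B l i) * B l j)) x) (ξ j) : JI → ℂ) (jn s q.1) = (r : ℂ) := by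
      rw [← hr2, Finset.sum_comm]
      refine Finset.sum_congr rfl fun i _ => ?_
      rw [Finset.sum_comm]
      refine Finset.sum_congr rfl fun j _ => ?_
      refine Finset.sum_congr rfl fun s _ => ?_
      rw [psB_apply hEl hGc e H _ x (ξ j) q s, Finset.mul_sum]
      refine Finset.sum_congr rfl fun t _ => ?_
      rw [hcoef]
      ring
    rw [h1]
    exact_mod_cast hr
  refine ⟨psL hAdm hLev hGa e H hA, ?_, hcp, ?_⟩
  · intro M
    exact ⟨psH e H M, fun s t => ⟨psH_adm hAdm e H M s t (fun l => hA l s s.2 t t.2),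
      hcoef M s t⟩, rfl⟩
  · refine NPSI_norm m _ ?_ hcp
    exact Subtype.ext (psB_one hAct hGa e p f hf1 H hC)

end Pool.OPP
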