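import Mathlib
import Pool.Agent.H70.OPP.NPSI

/-!
# OPP, module NPSI: the finite part of the positivity
-/

set_option autoImplicit false

open scoped Topology ComplexConjugate Uniformity

namespace Pool.OPP

open Classical in
/-- pattern of an index -/
noncomputable def pf_c {L : ℕ} (p : Fin L → SS) (l : Fin L) (s : JI) : Finset (Fin hh) :=
  Finset.univ.filter fun w => p l ∈ FF w ∧ typ s = w.succ

theorem pf_c_iff {L : ℕ} (p : Fin L → SS) (l : Fin L) (s t : JI) :
    (∀ w : Fin hh, p l ∈ FF w → (typ s = w.succ ↔ typ t = w.succ)) ↔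
      pf_c p l s = pf_c p l t := by
  classical
  unfold pf_c
  constructor
  · intro h
    ext w
    simp only [Finset.mem_filter, Finset.mem_univ, true_and]
    constructor
    · rintro ⟨h1, h2⟩
      exact ⟨h1, (h w h1).1 h2⟩
    · rintro ⟨h1, h2⟩
      exact ⟨h1, (h w h1).2 h2⟩
  · intro h w hw
    have h1 := Finset.ext_iff.1 h w
    simp only [Finset.mem_filter, Finset.mem_univ, true_and] at h1
    constructor
    · intro h2
      exact (h1.1 ⟨hw, h2⟩).2
    · intro h2
      exact (h1.2 ⟨hw, h2⟩).2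

theorem pf_coef {L n : ℕ} (p : Fin L → SS) (f : Fin L → C(SS, ℝ)) (l : Fin L) (s t : JI)
    (y : SS) : coef n p f l s t y = ∑ g : Fin n → ZMod 3, ∑ c : Finset (Fin hh),
      (((3 ^ n : ℝ)⁻¹ * f l (act (-(ps_ex n g)) y) : ℝ) : ℂ) *
        (conj ((if pf_c p l s = c then 1 else 0) * conj (chi (ps_ex n g) s)) *
          ((if pf_c p l t = c then 1 else 0) * conj (chi (ps_ex n g) t))) := by
  classical
  unfold coef
  rw [ps_avg]
  by_cases h : pf_c p l s = pf_c p l t
  · rw [if_pos ((pf_c_iff p l s t).2 h), Finset.mul_sum]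
    refine Finset.sum_congr rfl fun g _ => ?_
    rw [Finset.sum_eq_single (pf_c p l s)]
    · rw [if_pos rfl, if_pos h.symm]
      push_cast
      simp only [one_mul, Complex.conj_conj]
      ring
    · intro c _ hc
      rw [if_neg (fun h' => hc h'.symm)]
      simp
    · intro h'
      exact absurd (Finset.mem_univ _) h'
  · rw [if_neg (fun h' => h ((pf_c_iff p l s t).1 h'))]
    symm
    refine Finset.sum_eq_zero fun g _ => Finset.sum_eq_zero fun c _ => ?_
    by_cases h1 : pf_c p l s = c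
    · rw [if_neg (fun h2 : pf_c p l t = c => h (h1.trans h2.symm))]
      simp
    · rw [if_neg h1]
      simp

theorem npsi_fin70 : SNpsiFin := by
  classical
  intro L k n m n' e p f hf0 B y v
  -- the vectors
  let z : (Fin L × Fin n' × Fin m × (Fin n → ZMod 3) × Finset (Fin hh)) → Fin n' → JJ k → ℂ :=
    fun q j t => B q.2.1 j q.2.2.1 (e (q.1, t)) *
      ((if pf_c p q.1 t = q.2.2.2.2 then 1 else 0) * conj (chi (ps_ex n q.2.2.2.1) t)) * v j t
  let w : (Fin L × Fin n' × Fin m × (Fin n → ZMod 3) × Finset (Fin hh)) → ℝ :=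
    fun q => (3 ^ n : ℝ)⁻¹ * f q.1 (act (-(ps_ex n q.2.2.2.1)) y)
  have hw : ∀ q, 0 ≤ w q := fun q => mul_nonneg (by positivity) (hf0 _ _)
  have hX : ∀ i j (s t : JJ k), conj (v i s) *
      (∑ l, (∑ l', star (B l' i) * B l' j) (e (l, s)) (e (l, t)) * coef n p f l s t y) *
        v j t = ∑ q, (w q : ℂ) * (conj (z q i s) * z q j t) := by
    intro i j s t
    have h1 : ∀ l, (∑ l', star (B l' i) * B l' j) (e (l, s)) (e (l, t)) =
        ∑ l', ∑ r, conj (B l' i r (e (l, s))) * B l' j r (e (l, t)) := by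
      intro l
      rw [Matrix.sum_apply]
      refine Finset.sum_congr rfl fun l' _ => ?_
      rw [Matrix.mul_apply]
      rfl
    simp only [Fintype.sum_prod_type, z, w]
    rw [Finset.mul_sum, Finset.sum_mul]
    refine Finset.sum_congr rfl fun l _ => ?_
    rw [h1, pf_coef, Finset.sum_mul, Finset.mul_sum, Finset.sum_mul]
    refine Finset.sum_congr rfl fun l' _ => ?_
    rw [Finset.sum_mul, Finset.mul_sum, Finset.sum_mul]
    refine Finset.sum_congr rfl fun r _ => ?_
    rw [Finset.mul_sum, Finset.mul_sum, Finset.sum_mul]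
    refine Finset.sum_congr rfl fun g _ => ?_
    rw [Finset.mul_sum, Finset.mul_sum, Finset.sum_mul]
    refine Finset.sum_congr rfl fun c _ => ?_
    simp only [map_mul]
    ring
  refine ⟨∑ q, w q * ‖∑ j, ∑ t : JJ k, z q j t‖ ^ 2,
    Finset.sum_nonneg fun q _ => mul_nonneg (hw q) (by positivity), ?_⟩
  simp_rw [hX]
  have h2 : ∀ q, ((w q * ‖∑ j, ∑ t : JJ k, z q j t‖ ^ 2 : ℝ) : ℂ) =
      ∑ i, ∑ j, ∑ s : JJ k, ∑ t : JJ k, (w q : ℂ) * (conj (z q i s) * z q j t) := by
    intro q
    push_cast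
    rw [← Complex.conj_mul', map_sum, Finset.sum_mul_sum, Finset.mul_sum]
    refine Finset.sum_congr rfl fun i _ => ?_
    rw [Finset.mul_sum]
    refine Finset.sum_congr rfl fun j _ => ?_
    rw [map_sum, Finset.sum_mul_sum, Finset.mul_sum]
    refine Finset.sum_congr rfl fun s _ => ?_
    rw [Finset.mul_sum]
  push_cast
  have h3 : ∑ q, ((w q : ℂ) * (‖∑ j, ∑ t : JJ k, z q j t‖ : ℂ) ^ 2) =
      ∑ q, ∑ i, ∑ j, ∑ s : JJ k, ∑ t : JJ k, (w q : ℂ) * (conj (z q i s) * z q j t) := by
    refine Finset.sum_congr rfl fun q _ => ?_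
    rw [← h2 q]
    push_cast
    rfl
  rw [h3]
  symm
  rw [Finset.sum_comm]
  refine Finset.sum_congr rfl fun i _ => ?_
  rw [Finset.sum_comm]
  refine Finset.sum_congr rfl fun j _ => ?_
  rw [Finset.sum_comm]
  refine Finset.sum_congr rfl fun s _ => ?_
  rw [Finset.sum_comm]

/-- module NPSI -/
theorem sNpsi (hAct : SAct) (hEl : SEl) (hGc : SGc) (hGa : SGa) (hAdm : SAdm) (hLev : SLev)
    (hNadm : SNadm) (hNpos : SNpos) : SNpsi :=
  sNpsi_of npsi_fin70 hAct hEl hGc hGa hAdm hLev hNadm hNpos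

end Pool.OPP
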